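import Pool.Agent.H849.PAD.MixDefs
import Pool.Agent.H849.MX.Main
import Pool.Graph.R_pool_sql_team_seeded_1acbe0a2.Y143.Par.PhiN

/-!
# p-adic weight-monodromy for zero loci of ample bundles and complete intersections of different classes
-/

set_option autoImplicit false

namespace Pool.Agent.Results.MP_d037d4_ag.AmpleZeroLoci

open Pool.Agent.Y143 Pool.Agent.Y143.Par Pool.Agent.H849.PAD Pool.Agent.H849.SEC Pool.Agent.H849.MX
open scoped TensorProduct

universe u

/-- Let `K₀` be the field of fractions of the Witt vectors of a field with `p ^ f` elements, `σ` its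
Frobenius, and `E = (D, φ, N)` a `(φ, N)`-module over `K₀` such that `Ω ⊗ D` is a direct summand of a
sum of Tate twists `H^(j_i)_HK(Z_i)(-t_i)`, `j_i + 2 t_i = m`, where the `Z_i` are zero loci of sections
of ample vector bundles (complete intersections of different ample divisors, for example), or ample
coverings of these, in projective strictly semistable schemes `X_i` whose strata satisfy the mixed
Hodge-Riemann relations. Then the graded pieces `gr^M_a D` of the monodromy filtration are pure of
weight `m + a`. -/
theorem result {K₀ : Type u} [Field K₀] [CharZero K₀] {σ : K₀ →+* K₀} {p f : ℕ} (hp : 1 < p ^ f)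
    (hσ : ∀ a, σ^[f] a = a) {Ω : Type u} [Field Ω] [CharZero Ω] [IsAlgClosed Ω] [Algebra K₀ Ω]
    {ι : Type} [Finite ι] (P : ι → ZeroLocus.{u, u} Ω (p ^ f)) (t : ι → ℤ) (m : ℤ)
    (hm : ∀ i, (P i).degree + 2 * t i = m) (E : PhiNModule.{u, u} K₀ σ p)
    (hE : IsSummand (p ^ f) (fun i => (P i).H) (fun i => (P i).frob) (fun i => (P i).N) t
      ((E.frob f hσ).baseChange Ω) (E.N.baseChange Ω)) :
    E.IsPure Ω f hσ m := by
  have hp0 : p ≠ 0 := by
    rintro rfl
    rcases Nat.eq_zero_or_pos f with h | h
    · rw [h, pow_zero] at hp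
      omega
    · rw [zero_pow h.ne'] at hp
      omega
  exact E.isPure_of_isMWPure hp0 Ω f hσ m (hE.isMWPure (pow_ne_zero f hp0) hm fun i =>
    pure_of_mixed hp (P i).lefschetz (P i).map (P i).degree (P i).polarised)

end Pool.Agent.Results.MP_d037d4_ag.AmpleZeroLoci
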