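import Pool.Agent.H849.PAD.Cov

/-!
# p-adic weight-monodromy for coverings branched along ample divisors

Let `X'` be a projective strictly semistable scheme of relative dimension `n`, with an action of a finite
group `G` generated by automorphisms each of which fixes pointwise an ample divisor transversal to the
strata of the special fibre. For example, `X' → X` is the covering `w ^ m = f` of an arbitrary projective
strictly semistable scheme `X`, branched along an ample divisor (`p` does not divide `m`).

1. Every `(φ, N)`-module which is (after extension of scalars) a direct summand of a sum of Tate twists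
   of the new parts of the Hyodo-Kato cohomology of such coverings satisfies the p-adic
   weight-monodromy conjecture.
2. The conjecture is true for the Hyodo-Kato cohomology of `X'` in the degree `j` if and only if it is
   true for its `G`-invariants, the Hyodo-Kato cohomology of `X = X' / G`.
-/

set_option autoImplicit false

namespace Pool.Agent.Results.MP_d037d4_ag.NewPartsOfCoverings

open Pool.Agent.Y143 Pool.Agent.Y143.Par Pool.Agent.H849.CC Pool.Agent.H849.PAD
open scoped TensorProduct

universe u

/-- Let `K₀` be the field of fractions of the Witt vectors of a field with `p ^ f` elements and `σ` its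
Frobenius. The `(φ, N)`-modules over `K₀` which are direct summands (over `Ω`) of sums of Tate twists
of new parts of coverings are pure, and the Hyodo-Kato cohomology `E` of a covering `X'` is pure if and
only if the Hyodo-Kato cohomology `E₀` of the quotient `X` is pure. -/
theorem result {K₀ : Type u} [Field K₀] [CharZero K₀] {σ : K₀ →+* K₀} {p f : ℕ} (hp : 1 < p ^ f)
    (hσ : ∀ a, σ^[f] a = a) {Ω : Type u} [Field Ω] [CharZero Ω] [IsAlgClosed Ω] [Algebra K₀ Ω] :
    (∀ {ι : Type} [Finite ι] (H : ι → Type u) [∀ i, AddCommGroup (H i)] [∀ i, Module Ω (H i)]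
      (F M : ∀ i, Module.End Ω (H i)) (n : ι → ℕ) (t : ι → ℤ) (m : ℤ),
      (∀ i, IsNewPart.{u, u} (p ^ f) (n i) (F i) (M i)) → (∀ i, n i + 2 * t i = m) →
        ∀ E : PhiNModule.{u, u} K₀ σ p, IsSummand (p ^ f) H F M t ((E.frob f hσ).baseChange Ω)
          (E.N.baseChange Ω) → E.IsPure Ω f hσ m) ∧
      ∀ {Γ : Type} {n : ℕ} (X' : SemistableModel.{u, u} Ω Γ n (p ^ f)) {G : Type} [Group G]
        [Fintype G] (A : GroupAction X'.generic G), IsAmpleAction A → ∀ (j : ℕ)
          (E E₀ : PhiNModule.{u, u} K₀ σ p), IsFormOf E f hσ (X'.actV j X'.frob) (X'.N j) ⊤ →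
            IsFormOf E₀ f hσ (X'.actV j X'.frob) (X'.N j) (A.invariants j) →
              (E.IsPure Ω f hσ j ↔ E₀.IsPure Ω f hσ j) := by
  have hp0 : p ≠ 0 := by
    rintro rfl
    rcases Nat.eq_zero_or_pos f with h | h
    · rw [h, pow_zero] at hp
      omega
    · rw [zero_pow h.ne'] at hp
      omega
  refine ⟨fun {ι} _ H _ _ F M n t m hnew hm E hE => ?_, fun {Γ n} X' {G} _ _ A hA j E E₀ hE hE₀ => ?_⟩
  · exact E.isPure_of_isMWPure hp0 Ω f hσ m
      (hE.isMWPure (pow_ne_zero f hp0) (w := fun i => n i) hm fun i => new_pure (hnew i))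
  · rw [isPure_iff_of_form hp0 hE, isPure_iff_of_form hp0 hE₀, isMWPure_iff_top]
    exact GroupAction.pure_iff hA.1 hA.2 j

end Pool.Agent.Results.MP_d037d4_ag.NewPartsOfCoverings
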